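import Pool.Agent.E95.Classes

/-!
MP_e95e88_co, Q1 (full answer): `m₁ = 33/16` and `m₂ = 11/5`.

The proof rests on the structure theorem `E95.structure_thm`: for `k = 1, 2, 3`, every finite
graph with `e - 2 v + 2 ≥ k` has a minor with at most `5 k + 1` vertices and
`e - 2 v + 2 ≥ k`.
-/

namespace Pool.Agent.Results.MP_e95e88_co.CriticalDensities

open E95

/-- The least critical density above `2` of a proper minor-closed class is `33/16`, and the least
critical density above `2` of a proper addable minor-closed class is `11/5`. -/
theorem result :
    IsLeast (critB ∩ Set.Ioi 2) (33 / 16) ∧ IsLeast (critB₂ ∩ Set.Ioi 2) (11 / 5) :=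
  main_result

end Pool.Agent.Results.MP_e95e88_co.CriticalDensities
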